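import Pool.Agent.H54.KVA.Defs

/-!
# Module MAXP: the entropy is at least the mean logarithm of the largest probability
-/

set_option autoImplicit false

namespace Pool.KVA

open Finset Real MeasureTheory
open Pool.Agent.H49.Ent Pool.Agent.H32.Dense Pool.STK

theorem maxp_thm : MAXPStmt := by
  intro Ω S T _ p X Z B hp hB
  have hp0 := hp.nonneg
  have hp1 := hp.sum_one
  -- the bound is positive on the support
  have hBpos : ∀ ω, 0 < p ω → 0 < B (Z ω) := by
    intro ω hω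
    have h1 : 0 < law p (fun ω => (X ω, Z ω)) (X ω, Z ω) / law p Z (Z ω) :=
      div_pos (law_pos hp0 (fun ω => (X ω, Z ω)) hω) (law_pos hp0 Z hω)
    have h2 := hB ω hω (X ω)
    rw [law_cond] at h2
    linarith
  set E := Ex p (fun ω => B (Z ω)) with hE
  have hEpos : 0 < E := by
    obtain ⟨ω₀, -, h0⟩ : ∃ ω ∈ (Finset.univ : Finset Ω), 0 < p ω := by
      refine Finset.exists_lt_of_sum_lt (s := Finset.univ) (f := fun _ => (0 : ℝ)) (g := p) ?_
      rw [hp1]
      simp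
    have h1 : p ω₀ * B (Z ω₀) ≤ E := by
      rw [hE]
      unfold Ex
      refine Finset.single_le_sum (f := fun ω => p ω * B (Z ω)) (fun ω _ => ?_)
        (Finset.mem_univ ω₀)
      rcases (hp0 ω).eq_or_lt with h | h
      · simp [← h]
      · exact mul_nonneg h.le (hBpos ω h).le
    exact lt_of_lt_of_le (mul_pos h0 (hBpos ω₀ h0)) h1
  rw [CH_eq_neg_sum hp0]
  have key : Ex p (fun ω => -Real.log E - (E⁻¹ * B (Z ω) - 1)) ≤
      Ex p (fun ω => -Real.log (law p (fun ω => (X ω, Z ω)) (X ω, Z ω) / law p Z (Z ω))) := by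
    refine Ex_mono hp0 fun ω hω => ?_
    have h1 : 0 < law p (fun ω => (X ω, Z ω)) (X ω, Z ω) / law p Z (Z ω) :=
      div_pos (law_pos hp0 (fun ω => (X ω, Z ω)) hω) (law_pos hp0 Z hω)
    have h2 := hB ω hω (X ω)
    rw [law_cond] at h2
    have h3 := Real.log_le_log h1 h2
    have h4 := Real.log_le_sub_one_of_pos (x := E⁻¹ * B (Z ω))
      (mul_pos (inv_pos.mpr hEpos) (hBpos ω hω))
    rw [Real.log_mul (inv_ne_zero hEpos.ne') (hBpos ω hω).ne', Real.log_inv] at h4
    linarith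
  refine le_trans (le_of_eq ?_) key
  have e1 : Ex p (fun ω => -Real.log E - (E⁻¹ * B (Z ω) - 1)) =
      Ex p (fun _ => -Real.log E) - Ex p (fun ω => E⁻¹ * B (Z ω) - 1) :=
    Ex_sub p (fun _ => -Real.log E) (fun ω => E⁻¹ * B (Z ω) - 1)
  have e2 : Ex p (fun ω => E⁻¹ * B (Z ω) - 1) =
      Ex p (fun ω => E⁻¹ * B (Z ω)) - Ex p (fun _ => (1 : ℝ)) :=
    Ex_sub p (fun ω => E⁻¹ * B (Z ω)) (fun _ => (1 : ℝ))
  rw [e1, e2, Ex_smul, Ex_const hp1, Ex_const hp1, ← hE, inv_mul_cancel₀ hEpos.ne']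
  ring

end Pool.KVA
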