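import Pool.Agent.H54.KVA.Defs
import Pool.Agent.H72.STK.PR2
import Pool.Agent.H40.STK.PRD

/-!
# Module UPP: upper bounds for the entropies of the sum
-/

set_option autoImplicit false

namespace Pool.KVA

open Finset Real MeasureTheory
open Pool.Agent.H49.Ent Pool.Agent.H32.Dense Pool.STK

namespace UPP

/-- The entropy of a vector is at most the sum of the entropies of its coordinates. -/
lemma CH_coord {W T : Type} [Fintype W] {q : W → ℝ} (hq : ∀ w, 0 ≤ q w) (Z : W → T) {d : ℕ}
    (A : W → Fin d → ℤ) : CH q A Z ≤ ∑ i, CH q (fun w => A w i) Z := by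
  have key : ∀ s : Finset (Fin d), CH q (fun w i => if i ∈ s then A w i else 0) Z ≤
      ∑ i ∈ s, CH q (fun w => A w i) Z := by
    intro s
    induction s using Finset.induction_on with
    | empty =>
      rw [Finset.sum_empty]
      refine (CH_eq_zero hq ?_).le
      intro w w' _ _ _
      simp
    | insert j s hj ih =>
      rw [Finset.sum_insert hj]
      have h1 : CH q (fun w i => if i ∈ insert j s then A w i else 0) Z ≤
          CH q (fun w => (A w j, fun i => if i ∈ s then A w i else 0)) Z := by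
        refine CH_mono_left hq fun w w' _ _ h => ?_
        simp only [Prod.mk.injEq] at h
        funext i
        by_cases hi : i ∈ s
        · have h2 := congrFun h.1.2 i
          rw [if_pos hi, if_pos hi] at h2
          rw [if_pos (Finset.mem_insert_of_mem hi), if_pos (Finset.mem_insert_of_mem hi), h2]
        · by_cases hij : i = j
          · subst hij
            rw [if_pos (Finset.mem_insert_self _ _), if_pos (Finset.mem_insert_self _ _), h.1.1]
          · rw [if_neg, if_neg] <;>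
            · intro hc
              rcases Finset.mem_insert.mp hc with h3 | h3
              · exact hij h3
              · exact hi h3
      refine h1.trans ((CH_subadd hq (fun w => A w j) _ Z).trans ?_)
      linarith
  have h := key Finset.univ
  simpa using h

lemma log_two_le_one : Real.log 2 ≤ 1 := by
  have := Real.log_two_lt_d9
  linarith

end UPP

theorem upp_thm : UP1Stmt → VSMStmt → BVRStmt → UPPStmt := by
  rintro ⟨C₁, hC₁, hU⟩ hV hB d
  refine ⟨d * (1 + C₁), by positivity, ?_⟩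
  intro Ω₁ Ω₂ _ _ p₁ p₂ X Y g j v lam N h1 h2 hgj hA
  obtain ⟨hl, -, -⟩ := prd_thm Ω₂ (Fin (4 ^ g)) Unit p₂ h2
  obtain ⟨hps, -, -, -⟩ := pr2_thm Ω₁ (Fin (4 ^ g) → Ω₂) Unit Unit p₁ (prd p₂) h1 hl
  have hps' : IsLaw (ps p₁ p₂ (4 ^ g)) := hps
  -- the conditional variance of a coordinate of the sum
  have hsum : ∀ (F : Ω₁ → ℝ) (f : Ω₂ → ℝ) (B : ℝ), cVar p₂ f (Fl Y j) = B →
      CH (ps p₁ p₂ (4 ^ g)) (fun w => ⌊F w.1 + ∑ l, f (w.2 l)⌋) (cx Y j) ≤
        1 / 2 * Real.log (1 + 4 ^ g * B) + C₁ := by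
    intro F f B hf
    have e1 := hV Ω₁ Ω₂ (Fin d → ℤ) p₁ p₂ F f (Fl Y j) (4 ^ g) h1 h2
    have e2 := hU (Ω₁ × (Fin (4 ^ g) → Ω₂)) (Ω₁ × (Fin (4 ^ g) → Fin d → ℤ))
      (ps p₁ p₂ (4 ^ g)) (fun w => F w.1 + ∑ l, f (w.2 l)) (cx Y j) hps'
    have e3 : cVar (ps p₁ p₂ (4 ^ g)) (fun w => F w.1 + ∑ l, f (w.2 l)) (cx Y j) =
        4 ^ g * B := by
      have : cVar (ps p₁ p₂ (4 ^ g)) (fun w => F w.1 + ∑ l, f (w.2 l)) (cx Y j) =
          ((4 ^ g : ℕ) : ℝ) * cVar p₂ f (Fl Y j) := e1
      rw [this, hf]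
      push_cast
      ring
    rw [e3] at e2
    exact e2
  constructor
  · refine (UPP.CH_coord hps'.nonneg (cx Y j) _).trans ?_
    have hi : ∀ i ∈ (Finset.univ : Finset (Fin d)),
        CH (ps p₁ p₂ (4 ^ g)) (fun w => Fl (Sm (4 ^ g) X Y) (j - g) w i) (cx Y j) ≤ 1 + C₁ := by
      intro i _
      have hb := hB Ω₂ (Fin d → ℤ) p₂ (fun ω => 2 ^ (j - g) * Y ω i) (Fl Y j) (2 ^ g)⁻¹ h2
        (by positivity) (by
          intro ω ω' _ _ h
          have e1 : ⌊(2 : ℝ) ^ j * Y ω i⌋ = ⌊(2 : ℝ) ^ j * Y ω' i⌋ := congrFun h i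
          have e2 : |(2 : ℝ) ^ j * Y ω i - 2 ^ j * Y ω' i| < 1 := by
            have a1 := Int.floor_le ((2 : ℝ) ^ j * Y ω i)
            have a2 := Int.lt_floor_add_one ((2 : ℝ) ^ j * Y ω i)
            have a3 := Int.floor_le ((2 : ℝ) ^ j * Y ω' i)
            have a4 := Int.lt_floor_add_one ((2 : ℝ) ^ j * Y ω' i)
            rw [e1] at a1 a2
            rw [abs_lt]
            constructor <;> linarith
          have e3 : (2 : ℝ) ^ j = 2 ^ g * 2 ^ (j - g) := by
            rw [← pow_add]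
            congr 1
            omega
          have e4 : (2 : ℝ) ^ j * Y ω i - 2 ^ j * Y ω' i =
              2 ^ g * (2 ^ (j - g) * Y ω i - 2 ^ (j - g) * Y ω' i) := by
            rw [e3]
            ring
          rw [e4, abs_mul, abs_of_pos (by positivity : (0 : ℝ) < 2 ^ g)] at e2
          rw [inv_eq_one_div, le_div_iff₀ (by positivity), mul_comm]
          exact e2.le)
      have hs := hsum (fun ω => 2 ^ (j - g) * X ω i) (fun ω => 2 ^ (j - g) * Y ω i) _ rfl
      have e5 : (fun w : Ω₁ × (Fin (4 ^ g) → Ω₂) => Fl (Sm (4 ^ g) X Y) (j - g) w i) =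
          fun w => ⌊2 ^ (j - g) * X w.1 i + ∑ l, 2 ^ (j - g) * Y (w.2 l) i⌋ := by
        funext w
        have : Fl (Sm (4 ^ g) X Y) (j - g) w i =
            ⌊(2 : ℝ) ^ (j - g) * (X w.1 i + ∑ l, Y (w.2 l) i)⌋ := rfl
        rw [this, mul_add, Finset.mul_sum]
      rw [e5]
      refine hs.trans ?_
      have e6 : (4 : ℝ) ^ g * cVar p₂ (fun ω => 2 ^ (j - g) * Y ω i) (Fl Y j) ≤ 1 := by
        have a1 := mul_le_mul_of_nonneg_left hb.2 (by positivity : (0 : ℝ) ≤ 4 ^ g)
        have a2 : (4 : ℝ) ^ g * ((2 ^ g)⁻¹) ^ 2 = 1 := by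
          have : (4 : ℝ) ^ g = (2 ^ g) ^ 2 := by
            rw [← pow_mul, mul_comm, pow_mul]
            norm_num
          rw [this, ← mul_pow, mul_inv_cancel₀ (by positivity), one_pow]
        linarith
      have e7 : 0 ≤ (4 : ℝ) ^ g * cVar p₂ (fun ω => 2 ^ (j - g) * Y ω i) (Fl Y j) :=
        mul_nonneg (by positivity) hb.1
      have e8 : Real.log (1 + 4 ^ g * cVar p₂ (fun ω => 2 ^ (j - g) * Y ω i) (Fl Y j)) ≤
          Real.log 2 := Real.log_le_log (by linarith) (by linarith)
      have e9 := UPP.log_two_le_one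
      linarith
    refine (Finset.sum_le_sum hi).trans ?_
    rw [Finset.sum_const, nsmul_eq_mul, Finset.card_univ, Fintype.card_fin]
  · refine (UPP.CH_coord hps'.nonneg (cx Y j) _).trans ?_
    have hi : ∀ i ∈ (Finset.univ : Finset (Fin d)),
        CH (ps p₁ p₂ (4 ^ g)) (fun w => prj v N (Sm (4 ^ g) X Y) j w i) (cx Y j) ≤
          (if i ∈ N then 1 / 2 * Real.log (1 + 4 ^ g * lam i) else 0) + (1 + C₁) := by
      intro i _
      by_cases hiN : i ∈ N
      · rw [if_pos hiN]
        have e1 : lc v (fun l => if l = i then 1 else 0) = v i := by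
          funext l
          unfold lc
          simp
        have e2 := hA.diag (fun l => if l = i then 1 else 0)
        rw [e1] at e2
        have e3 : ∑ l, lam l * (if l = i then (1 : ℝ) else 0) ^ 2 = lam i := by
          simp
        rw [e3] at e2
        have hs := hsum (fun ω => 2 ^ j * ip (v i) (X ω)) (fun ω => 2 ^ j * ip (v i) (Y ω)) _ e2
        have e5 : (fun w : Ω₁ × (Fin (4 ^ g) → Ω₂) => prj v N (Sm (4 ^ g) X Y) j w i) =
            fun w => ⌊2 ^ j * ip (v i) (X w.1) + ∑ l, 2 ^ j * ip (v i) (Y (w.2 l))⌋ := by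
          funext w
          have a1 : prj v N (Sm (4 ^ g) X Y) j w i =
              ⌊(2 : ℝ) ^ j * ip (v i) (Sm (4 ^ g) X Y w)⌋ := by
            unfold prj
            rw [if_pos hiN]
          have a2 : ip (v i) (Sm (4 ^ g) X Y w) =
              ip (v i) (X w.1) + ∑ l, ip (v i) (Y (w.2 l)) := by
            unfold ip Sm
            rw [Finset.sum_comm, ← Finset.sum_add_distrib]
            refine Finset.sum_congr rfl fun k _ => ?_
            rw [mul_add, Finset.mul_sum]
          rw [a1, a2, mul_add, Finset.mul_sum]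
        rw [e5]
        linarith
      · rw [if_neg hiN]
        have e1 : CH (ps p₁ p₂ (4 ^ g)) (fun w => prj v N (Sm (4 ^ g) X Y) j w i) (cx Y j) = 0 := by
          refine CH_eq_zero hps'.nonneg ?_
          intro w w' _ _ _
          unfold prj
          simp only [if_neg hiN]
        rw [e1]
        linarith
    refine (Finset.sum_le_sum hi).trans ?_
    rw [Finset.sum_add_distrib, Finset.sum_const, nsmul_eq_mul, Finset.card_univ,
      Fintype.card_fin, ← Finset.sum_filter]
    have : (Finset.univ.filter fun i => i ∈ N) = N := by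
      ext i
      simp
    rw [this]

end Pool.KVA
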